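import Pool.Agent.Run7.h608.BC.Iface

/-! Piece PRD of project BC of helper608 (MP_ddcbd8_an, Q2) -/

set_option autoImplicit false

open MeasureTheory Set Filter Topology
open scoped ENNReal ContDiff

namespace Pool.Agent.Run7.h540.BC

open Run7.h608.BC

lemma m_eq (ξ : ℝ) : m ξ = Complex.exp (((-(Real.pi * ξ) : ℝ) : ℂ) * Complex.I) *
    Complex.cos ((Real.pi * ξ : ℝ) : ℂ) := by
  unfold m e
  rw [Complex.cos]
  have h1 : Complex.exp (((-(Real.pi * ξ) : ℝ) : ℂ) * Complex.I) *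
      Complex.exp (((Real.pi * ξ : ℝ) : ℂ) * Complex.I) = 1 := by
    rw [← Complex.exp_add, ← Complex.exp_zero]
    congr 1; push_cast; ring
  have h2 : Complex.exp (((2 * Real.pi * (-ξ) : ℝ) : ℂ) * Complex.I) =
      Complex.exp (((-(Real.pi * ξ) : ℝ) : ℂ) * Complex.I) *
        Complex.exp (((-(Real.pi * ξ) : ℝ) : ℂ) * Complex.I) := by
    rw [← Complex.exp_add]
    congr 1; push_cast; ring
  have h3 : Complex.exp (-((Real.pi * ξ : ℝ) : ℂ) * Complex.I) =
      Complex.exp (((-(Real.pi * ξ) : ℝ) : ℂ) * Complex.I) := by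
    congr 1; push_cast; ring
  rw [h2, h3]
  linear_combination (-(1:ℂ)/2) * h1

lemma norm_m (ξ : ℝ) : ‖m ξ‖ = |Real.cos (Real.pi * ξ)| := by
  rw [m_eq, norm_mul, Complex.norm_exp_ofReal_mul_I, one_mul, ← Complex.ofReal_cos,
    Complex.norm_real, Real.norm_eq_abs]

lemma norm_m_le (ξ : ℝ) : ‖m ξ‖ ≤ 1 := by
  rw [norm_m]; exact Real.abs_cos_le_one _

lemma abs_cos_sub (x : ℝ) (n : ℤ) : |Real.cos (Real.pi * (x - n))| = |Real.cos (Real.pi * x)| := by
  have h1 : Real.pi * (x - n) = Real.pi * x - n * Real.pi := by ring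
  rw [h1, Real.cos_sub_int_mul_pi, abs_mul, abs_zpow, abs_neg, abs_one, one_zpow, one_mul]

lemma one_sub_sum_le_prod (a : ℕ → ℝ) (h0 : ∀ i, 0 ≤ a i) (h1 : ∀ i, a i ≤ 1) (n : ℕ) :
    1 - ∑ i ∈ Finset.range n, (1 - a i) ≤ ∏ i ∈ Finset.range n, a i := by
  induction n with
  | zero => simp
  | succ n ih =>
    rw [Finset.sum_range_succ, Finset.prod_range_succ]
    have hp : ∏ i ∈ Finset.range n, a i ≤ 1 :=
      Finset.prod_le_one (fun i _ => h0 i) (fun i _ => h1 i)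
    have := h1 n
    nlinarith

lemma sum_le_of_prod (a : ℕ → ℝ) (h0 : ∀ i, 0 ≤ a i) (l : ℝ) (hl : 0 < l)
    (h : ∀ n, l ≤ ∏ i ∈ Finset.range n, a i) (n : ℕ) :
    ∑ i ∈ Finset.range n, (1 - a i) ≤ -Real.log l := by
  have h2 : ∏ i ∈ Finset.range n, a i ≤ Real.exp (∑ i ∈ Finset.range n, (a i - 1)) := by
    rw [Real.exp_sum]
    refine Finset.prod_le_prod (fun i _ => h0 i) (fun i _ => ?_)
    have := Real.add_one_le_exp (a i - 1)
    linarith
  have h3 := Real.log_le_log hl ((h n).trans h2)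
  rw [Real.log_exp] at h3
  have h4 : ∑ i ∈ Finset.range n, (a i - 1) = - ∑ i ∈ Finset.range n, (1 - a i) := by
    rw [← Finset.sum_neg_distrib]
    exact Finset.sum_congr rfl (fun i _ => by ring)
  linarith

lemma H_mk {β : ℝ} {H : ℝ → ℂ} (hH : FT β H) (k : ℕ) (η : ℝ) :
    H (β ^ k * η) = Run7.h608.BC.mk β k η * H η := by
  induction k with
  | zero => simp [Run7.h608.BC.mk]
  | succ k ih =>
    have h1 : β ^ (k + 1) * η = β * (β ^ k * η) := by ring
    rw [h1, hH.fe, ih]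
    unfold Run7.h608.BC.mk
    rw [Finset.prod_range_succ]
    ring

theorem t_PRD : S_ARI → S_PRD := by
  intro hARI β H hβ hβ2 hH ξ hξ
  have hβ0 : 0 < β := by linarith
  -- limit of the norms
  have hanti : Antitone (fun k : ℕ => ‖Run7.h608.BC.mk β k ξ‖) := by
    refine antitone_nat_of_succ_le (fun k => ?_)
    unfold Run7.h608.BC.mk
    rw [Finset.prod_range_succ, norm_mul]
    exact mul_le_of_le_one_right (norm_nonneg _) (norm_m_le _)
  rw [tendsto_zero_iff_norm_tendsto_zero]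
  by_contra hcon
  -- a positive lower bound
  obtain ⟨l, hl, hlk⟩ : ∃ l : ℝ, 0 < l ∧ ∀ k, l ≤ ‖Run7.h608.BC.mk β k ξ‖ := by
    by_contra hno
    push Not at hno
    apply hcon
    rw [Metric.tendsto_atTop]
    intro δ hδ
    obtain ⟨k, hk⟩ := hno δ hδ
    refine ⟨k, fun n hn => ?_⟩
    rw [Real.dist_eq, sub_zero, abs_of_nonneg (norm_nonneg _)]
    exact lt_of_le_of_lt (hanti hn) hk
  let x : ℕ → ℝ := fun j => β ^ j * ξ
  let ε : ℕ → ℝ := fun j => x j - round (x j)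
  let a : ℕ → ℝ := fun j => ‖m (x j)‖
  have ha0 : ∀ j, 0 ≤ a j := fun j => norm_nonneg _
  have hmk : ∀ n, ‖Run7.h608.BC.mk β n ξ‖ = ∏ i ∈ Finset.range n, a i := by
    intro n
    unfold Run7.h608.BC.mk
    rw [norm_prod]
  have hsum1 : Summable (fun j => 1 - a j) := by
    refine summable_of_sum_range_le (c := -Real.log l) (fun j => ?_) (fun n => ?_)
    · have := norm_m_le (x j)
      change 0 ≤ 1 - ‖m (x j)‖
      linarith
    · exact sum_le_of_prod a ha0 l hl (fun n => by rw [← hmk]; exact hlk n) n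
  have hεabs : ∀ j, |ε j| ≤ 1 / 2 := fun j => abs_sub_round (x j)
  have haε : ∀ j, a j = Real.cos (Real.pi * ε j) := by
    intro j
    change ‖m (x j)‖ = _
    rw [norm_m, ← abs_cos_sub (x j) (round (x j))]
    refine abs_of_nonneg (Real.cos_nonneg_of_neg_pi_div_two_le_of_le ?_ ?_)
    · have h1 := (abs_le.1 (hεabs j)).1
      have h2 : x j - round (x j) = ε j := rfl
      rw [h2]
      nlinarith [Real.pi_pos]
    · have h1 := (abs_le.1 (hεabs j)).2
      have h2 : x j - round (x j) = ε j := rfl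
      rw [h2]
      nlinarith [Real.pi_pos]
  have hsq : ∀ j, 2 * ε j ^ 2 ≤ 1 - a j := by
    intro j
    rw [haε]
    have h1 : |Real.pi * ε j| ≤ Real.pi := by
      rw [abs_mul, abs_of_pos Real.pi_pos]
      have := hεabs j
      nlinarith [Real.pi_pos]
    have h2 := Real.cos_le_one_sub_mul_cos_sq h1
    have h3 : 2 / Real.pi ^ 2 * (Real.pi * ε j) ^ 2 = 2 * ε j ^ 2 := by
      have := Real.pi_pos.ne'
      field_simp
    rw [h3] at h2
    linarith
  have hsum2 : Summable (fun j => ε j ^ 2) := by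
    refine Summable.of_nonneg_of_le (fun j => sq_nonneg _) (fun j => ?_) hsum1
    have := hsq j
    nlinarith [sq_nonneg (ε j)]
  have hε0 : Tendsto ε atTop (𝓝 0) := by
    have h1 := hsum2.tendsto_atTop_zero
    have h2 := (Real.continuous_sqrt.tendsto 0).comp h1
    rw [Real.sqrt_zero] at h2
    have h3 : (Real.sqrt ∘ fun j => ε j ^ 2) = fun j => |ε j| := by
      funext j
      simp only [Function.comp]
      exact Real.sqrt_sq_eq_abs _
    rw [h3] at h2
    exact (tendsto_zero_iff_abs_tendsto_zero _).2 h2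
  refine hARI β ξ hβ hβ2 hξ ?_ hε0
  intro q hq
  have hq0 : (0:ℝ) < q := by exact_mod_cast hq
  -- choose p
  have hlim0 : Tendsto (fun p : ℕ => (q:ℝ) * ξ / β ^ p) atTop (𝓝 0) := by
    have h1 : Tendsto (fun p : ℕ => β ^ p) atTop atTop := tendsto_pow_atTop_atTop_of_one_lt hβ
    exact h1.const_div_atTop _
  have hHlim : Tendsto (fun p : ℕ => H ((q:ℝ) * ξ / β ^ p)) atTop (𝓝 (H 0)) :=
    (hH.smooth.continuous.tendsto 0).comp hlim0
  have hev : ∀ᶠ p : ℕ in atTop, H ((q:ℝ) * ξ / β ^ p) ≠ 0 := by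
    refine hHlim.eventually_ne ?_
    rw [hH.zero]
    exact one_ne_zero
  obtain ⟨p, hp⟩ := hev.exists
  set η : ℝ := (q:ℝ) * ξ / β ^ p with hη
  have hη0 : η ≠ 0 := by
    rw [hη]
    have : β ^ p ≠ 0 := by positivity
    positivity
  have hmkη : Tendsto (fun k : ℕ => Run7.h608.BC.mk β k η) atTop (𝓝 0) := by
    have h1 : Tendsto (fun k : ℕ => β ^ k * η) atTop (cocompact ℝ) := by
      rw [← Metric.cobounded_eq_cocompact, ← tendsto_norm_atTop_iff_cobounded]
      have h2 : (fun k : ℕ => ‖β ^ k * η‖) = fun k : ℕ => β ^ k * |η| := by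
        funext k
        rw [norm_mul, Real.norm_eq_abs, Real.norm_eq_abs, abs_of_pos (by positivity)]
      change Tendsto (fun k : ℕ => ‖β ^ k * η‖) atTop atTop
      rw [h2]
      exact (tendsto_pow_atTop_atTop_of_one_lt hβ).atTop_mul_const (abs_pos.2 hη0)
    have h3 : Tendsto (fun k : ℕ => H (β ^ k * η)) atTop (𝓝 0) := hH.lim.comp h1
    have h4 : (fun k : ℕ => Run7.h608.BC.mk β k η) = fun k : ℕ => H (β ^ k * η) * (H η)⁻¹ := by
      funext k
      rw [H_mk hH, mul_assoc, mul_inv_cancel₀ hp, mul_one]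
    rw [h4]
    have h5 := h3.mul_const ((H η)⁻¹)
    rwa [zero_mul] at h5
  -- the tail of the product
  have hshift : ∀ i : ℕ, β ^ (p + i) * η = q * x i := by
    intro i
    change β ^ (p + i) * η = q * (β ^ i * ξ)
    rw [hη, pow_add]
    have : β ^ p ≠ 0 := by positivity
    field_simp
  have hterm : ∀ i : ℕ, 1 - ‖m (β ^ (p + i) * η)‖ ≤ 5 * (q:ℝ) ^ 2 * ε i ^ 2 := by
    intro i
    rw [hshift, norm_m]
    have h1 := abs_cos_sub (q * x i) ((q : ℤ) * round (x i))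
    have h2 : (q:ℝ) * x i - (((q : ℤ) * round (x i) : ℤ) : ℝ) = q * ε i := by
      change _ = (q:ℝ) * (x i - round (x i))
      push_cast; ring
    rw [h2] at h1
    rw [← h1]
    have h3 := Real.one_sub_sq_div_two_le_cos (x := Real.pi * (q * ε i))
    have h4 := le_abs_self (Real.cos (Real.pi * (q * ε i)))
    have h5 : (Real.pi * (q * ε i)) ^ 2 / 2 ≤ 5 * (q:ℝ) ^ 2 * ε i ^ 2 := by
      have h6 : Real.pi ^ 2 ≤ 10 := by
        have := Real.pi_lt_d2
        have := Real.pi_pos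
        nlinarith
      have h7 : (Real.pi * (q * ε i)) ^ 2 / 2 = Real.pi ^ 2 / 2 * ((q:ℝ) ^ 2 * ε i ^ 2) := by ring
      rw [h7]
      have h8 : 0 ≤ (q:ℝ) ^ 2 * ε i ^ 2 := by positivity
      nlinarith
    linarith
  have hsum3 : Summable (fun i => 5 * (q:ℝ) ^ 2 * ε i ^ 2) := hsum2.mul_left _
  obtain ⟨J, hJ⟩ : ∃ J : ℕ, ∑' i, 5 * (q:ℝ) ^ 2 * ε (i + J) ^ 2 < 1 / 2 := by
    have h1 := tendsto_sum_nat_add (fun i => 5 * (q:ℝ) ^ 2 * ε i ^ 2)
    exact (h1.eventually (gt_mem_nhds (by norm_num : (0:ℝ) < 1 / 2))).exists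
  have hprod : ∀ n : ℕ, 1 / 2 ≤ ∏ i ∈ Finset.range n, ‖m (β ^ (p + J + i) * η)‖ := by
    intro n
    have h1 := one_sub_sum_le_prod (fun i => ‖m (β ^ (p + J + i) * η)‖) (fun i => norm_nonneg _)
      (fun i => norm_m_le _) n
    have h2 : ∑ i ∈ Finset.range n, (1 - ‖m (β ^ (p + J + i) * η)‖) ≤
        ∑ i ∈ Finset.range n, 5 * (q:ℝ) ^ 2 * ε (i + J) ^ 2 := by
      refine Finset.sum_le_sum (fun i _ => ?_)
      have h3 := hterm (i + J)
      have h4 : p + (i + J) = p + J + i := by omega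
      rwa [h4] at h3
    have h5 : ∑ i ∈ Finset.range n, 5 * (q:ℝ) ^ 2 * ε (i + J) ^ 2 ≤
        ∑' i, 5 * (q:ℝ) ^ 2 * ε (i + J) ^ 2 := by
      refine Summable.sum_le_tsum _ (fun i _ => by positivity) ?_
      exact (summable_nat_add_iff J).2 hsum3
    linarith
  have hzero : Run7.h608.BC.mk β (p + J) η = 0 := by
    have h1 : ∀ n : ℕ, ‖Run7.h608.BC.mk β (p + J) η‖ * (1 / 2) ≤ ‖Run7.h608.BC.mk β (p + J + n) η‖ := by
      intro n
      have h2 : Run7.h608.BC.mk β (p + J + n) η =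
          Run7.h608.BC.mk β (p + J) η * ∏ i ∈ Finset.range n, m (β ^ (p + J + i) * η) := by
        unfold Run7.h608.BC.mk
        rw [Finset.prod_range_add]
      rw [h2, norm_mul, norm_prod]
      exact mul_le_mul_of_nonneg_left (hprod n) (norm_nonneg _)
    have h3 : Tendsto (fun n : ℕ => ‖Run7.h608.BC.mk β (p + J + n) η‖) atTop (𝓝 0) := by
      have h4 : Tendsto (fun k : ℕ => ‖Run7.h608.BC.mk β k η‖) atTop (𝓝 0) :=
        tendsto_zero_iff_norm_tendsto_zero.1 hmkη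
      have h5 : Tendsto (fun n : ℕ => p + J + n) atTop atTop :=
        tendsto_atTop_mono (fun n => Nat.le_add_left n (p + J)) tendsto_id
      exact h4.comp h5
    have h6 : ‖Run7.h608.BC.mk β (p + J) η‖ * (1 / 2) ≤ 0 := ge_of_tendsto' h3 h1
    have h7 : ‖Run7.h608.BC.mk β (p + J) η‖ ≤ 0 := by linarith
    exact norm_le_zero_iff.1 h7
  unfold Run7.h608.BC.mk at hzero
  obtain ⟨j, hj, hmj⟩ := Finset.prod_eq_zero_iff.1 hzero
  have hcos : Real.cos (Real.pi * (β ^ j * η)) = 0 := by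
    have h1 := norm_m (β ^ j * η)
    rw [hmj, norm_zero] at h1
    exact abs_eq_zero.1 h1.symm
  obtain ⟨b, hb⟩ := Real.cos_eq_zero_iff.1 hcos
  refine ⟨(j:ℤ) - p, b, ?_⟩
  rw [zpow_sub₀ hβ0.ne', zpow_natCast, zpow_natCast]
  have h1 : 2 * (q:ℝ) * (β ^ j / β ^ p) * ξ = 2 * (β ^ j * η) := by
    rw [hη]; ring
  rw [h1]
  have h2 := Real.pi_pos.ne'
  have h3 : Real.pi * (2 * (β ^ j * η)) = Real.pi * (2 * b + 1) := by linarith
  exact mul_left_cancel₀ h2 h3

end Pool.Agent.Run7.h540.BC
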