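import Pool.Agent.Run7.h608.BC.Iface

/-! Piece WAV of project BC of helper608 (MP_ddcbd8_an, Q2) -/

set_option autoImplicit false

open MeasureTheory Set Filter Topology
open scoped ENNReal ContDiff

namespace Pool.Agent.Run7.h540.BC

open Run7.h608.BC

lemma norm_e (θ : ℝ) : ‖e θ‖ = 1 := by
  unfold e
  exact Complex.norm_exp_ofReal_mul_I _

lemma e_add (a b : ℝ) : e (a + b) = e a * e b := by
  unfold e
  rw [← Complex.exp_add]
  congr 1; push_cast; ring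

lemma continuous_e : Continuous e := by
  unfold e
  fun_prop

lemma hasDerivAt_e (s η : ℝ) : HasDerivAt (fun η : ℝ => e (s * η))
    (((2 * Real.pi * s : ℝ) : ℂ) * Complex.I * e (s * η)) η := by
  unfold e
  have h1 : HasDerivAt (fun η : ℝ => (((2 * Real.pi * (s * η) : ℝ) : ℂ) * Complex.I))
      (((2 * Real.pi * s : ℝ) : ℂ) * Complex.I) η := by
    have h2 : HasDerivAt (fun η : ℝ => 2 * Real.pi * (s * η)) (2 * Real.pi * s) η := by
      simpa using ((hasDerivAt_id η).const_mul s).const_mul (2 * Real.pi)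
    exact (h2.ofReal_comp).mul_const Complex.I
  have h3 := h1.cexp
  convert h3 using 1
  ring

lemma integrable_mul_e (F : ℝ → ℂ) (hF : Continuous F) (hc : HasCompactSupport F) (s : ℝ) :
    Integrable (fun η => F η * e (s * η)) := by
  have he : Continuous (fun η : ℝ => e (s * η)) :=
    continuous_e.comp (continuous_const.mul continuous_id)
  exact (hF.mul he).integrable_of_hasCompactSupport hc.mul_right

lemma parts (F : ℝ → ℂ) (hF : ContDiff ℝ ∞ F) (hc : HasCompactSupport F) (s : ℝ) :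
    ((2 * Real.pi * s : ℝ) : ℂ) * Complex.I * ∫ η, F η * e (s * η) =
      - ∫ η, deriv F η * e (s * η) := by
  have hd : ∀ x, HasDerivAt F (deriv F x) x := fun x =>
    ((hF.differentiable (by simp)) x).hasDerivAt
  have hcont : Continuous (deriv F) := hF.continuous_deriv (by simp)
  have h1 := integrable_mul_e F hF.continuous hc s
  have h2 := integrable_mul_e (deriv F) hcont hc.deriv s
  have h3 : Integrable (F * fun η => ((2 * Real.pi * s : ℝ) : ℂ) * Complex.I * e (s * η)) := by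
    have h4 := h1.const_mul (((2 * Real.pi * s : ℝ) : ℂ) * Complex.I)
    refine h4.congr (ae_of_all _ (fun x => ?_))
    simp only [Pi.mul_apply]
    ring
  have h := integral_mul_deriv_eq_deriv_mul_of_integrable (u := F) (v := fun η => e (s * η))
    (u' := deriv F) (v' := fun η => ((2 * Real.pi * s : ℝ) : ℂ) * Complex.I * e (s * η))
    (fun x _ => hd x) (fun x _ => hasDerivAt_e s x) h3 h2 h1
  rw [← h, ← integral_const_mul]
  congr 1
  funext x
  ring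

lemma bound0 (G : ℝ → ℂ) (R b s : ℝ) (hR : 0 ≤ R) (hz : ∀ η, R < |η| → G η = 0)
    (hb : ∀ η, |η| ≤ R → ‖G η‖ ≤ b) : ‖∫ η, G η * e (s * η)‖ ≤ b * (2 * R) := by
  have h1 : ∫ η, G η * e (s * η) = ∫ η in Icc (-R) R, G η * e (s * η) := by
    symm
    apply setIntegral_eq_integral_of_forall_compl_eq_zero
    intro x hx
    have h2 : R < |x| := by
      by_contra hno
      push Not at hno
      exact hx (abs_le.1 hno)
    rw [hz x h2, zero_mul]
  rw [h1]
  have h3 : volume.real (Icc (-R) R) = 2 * R := by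
    rw [Real.volume_real_Icc_of_le (by linarith)]
    ring
  rw [← h3]
  apply norm_setIntegral_le_of_norm_le_const
  · exact isCompact_Icc.measure_lt_top
  · intro x hx
    rw [norm_mul, norm_e, mul_one]
    exact hb x (abs_le.2 hx)

lemma bound2 (F : ℝ → ℂ) (hF : ContDiff ℝ ∞ F) (R b : ℝ) (hR : 0 ≤ R)
    (hz : ∀ η, R < |η| → F η = 0) (h0 : ∀ η, |η| ≤ R → ‖F η‖ ≤ b)
    (h2 : ∀ η, |η| ≤ R → ‖deriv (deriv F) η‖ ≤ b) (s : ℝ) :
    (1 + s ^ 2) * ‖∫ η, F η * e (s * η)‖ ≤ 4 * R * b := by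
  have hsub : Function.support F ⊆ Icc (-R) R := by
    intro x hx
    by_contra hno
    apply hx
    apply hz
    by_contra hno2
    push Not at hno2
    exact hno (abs_le.1 hno2)
  have hts : tsupport F ⊆ Icc (-R) R := closure_minimal hsub isClosed_Icc
  have hc : HasCompactSupport F := isCompact_Icc.of_isClosed_subset (isClosed_tsupport F) hts
  have hF1 : ContDiff ℝ ∞ (deriv F) := (contDiff_infty_iff_deriv.1 hF).2
  have hts1 : tsupport (deriv F) ⊆ tsupport F :=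
    closure_minimal support_deriv_subset (isClosed_tsupport F)
  have hz2 : ∀ η, R < |η| → deriv (deriv F) η = 0 := by
    intro η hη
    by_contra hne
    have h3 : η ∈ Icc (-R) R := hts (hts1 (support_deriv_subset hne))
    exact absurd (abs_le.2 h3) (not_le.2 hη)
  have p1 := parts F hF hc s
  have p2 := parts (deriv F) hF1 hc.deriv s
  have b0 := bound0 F R b s hR hz h0
  have b2 := bound0 (deriv (deriv F)) R b s hR hz2 h2
  set I0 := ∫ η, F η * e (s * η) with hI0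
  set I1 := ∫ η, deriv F η * e (s * η) with hI1
  set I2 := ∫ η, deriv (deriv F) η * e (s * η) with hI2
  have h5 : ((2 * Real.pi * s : ℝ) : ℂ) * Complex.I * (((2 * Real.pi * s : ℝ) : ℂ) * Complex.I * I0)
      = I2 := by
    rw [p1, mul_neg, p2, neg_neg]
  have h6 : (2 * Real.pi * s) ^ 2 * ‖I0‖ = ‖I2‖ := by
    rw [← h5, norm_mul, norm_mul, norm_mul, norm_mul, Complex.norm_I, Complex.norm_real,
      Real.norm_eq_abs, mul_one, ← mul_assoc, ← abs_mul, ← sq, abs_of_nonneg (sq_nonneg _)]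
  have h7 : s ^ 2 * ‖I0‖ ≤ (2 * Real.pi * s) ^ 2 * ‖I0‖ := by
    apply mul_le_mul_of_nonneg_right _ (norm_nonneg _)
    have h8 : (1:ℝ) ≤ (2 * Real.pi) ^ 2 := by
      have := Real.pi_gt_three
      nlinarith
    have h9 : (2 * Real.pi * s) ^ 2 = (2 * Real.pi) ^ 2 * s ^ 2 := by ring
    rw [h9]
    nlinarith [sq_nonneg s]
  nlinarith

theorem t_WAV : S_WAV := by
  intro χ hχ
  obtain ⟨r, hr⟩ := (Metric.isBounded_iff_subset_closedBall (0:ℝ)).1 hχ.2.isCompact.isBounded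
  set R : ℝ := max r 1 with hRdef
  have hR1 : 1 ≤ R := le_max_right _ _
  have hR0 : 0 ≤ R := by linarith
  have hχz : ∀ η, R < |η| → χ η = 0 := by
    intro η hη
    apply image_eq_zero_of_notMem_tsupport
    intro hmem
    have h1 := hr hmem
    rw [mem_closedBall_zero_iff, Real.norm_eq_abs] at h1
    have h2 : r ≤ R := le_max_left _ _
    linarith
  have hχ1 : ContDiff ℝ ∞ (deriv χ) := (contDiff_infty_iff_deriv.1 hχ.1).2
  have hχ2 : ContDiff ℝ ∞ (deriv (deriv χ)) := (contDiff_infty_iff_deriv.1 hχ1).2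
  obtain ⟨a0, ha0⟩ := (isCompact_Icc (a := -R) (b := R)).exists_bound_of_continuousOn
    hχ.1.continuous.continuousOn
  obtain ⟨a1, ha1⟩ := (isCompact_Icc (a := -R) (b := R)).exists_bound_of_continuousOn
    hχ1.continuous.continuousOn
  obtain ⟨a2, ha2⟩ := (isCompact_Icc (a := -R) (b := R)).exists_bound_of_continuousOn
    hχ2.continuous.continuousOn
  obtain ⟨c, hc0, hc1, hc2, hc3⟩ : ∃ c : ℝ, 0 ≤ c ∧ a0 ≤ c ∧ a1 ≤ c ∧ a2 ≤ c :=
    ⟨|a0| + |a1| + |a2|, by positivity, by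
      have := le_abs_self a0; have := abs_nonneg a1; have := abs_nonneg a2; linarith, by
      have := le_abs_self a1; have := abs_nonneg a0; have := abs_nonneg a2; linarith, by
      have := le_abs_self a2; have := abs_nonneg a0; have := abs_nonneg a1; linarith⟩
  have kχ0 : ∀ η, |η| ≤ R → ‖χ η‖ ≤ c := fun η hη => (ha0 η (abs_le.1 hη)).trans hc1
  have kχ1 : ∀ η, |η| ≤ R → ‖deriv χ η‖ ≤ c := fun η hη => (ha1 η (abs_le.1 hη)).trans hc2
  have kχ2 : ∀ η, |η| ≤ R → ‖deriv (deriv χ) η‖ ≤ c :=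
    fun η hη => (ha2 η (abs_le.1 hη)).trans hc3
  refine ⟨4 * R * c, by positivity, ?_⟩
  intro q hq ξ₀
  have hq1 : ContDiff ℝ ∞ (deriv q) := (contDiff_infty_iff_deriv.1 hq).2
  have hq2 : ContDiff ℝ ∞ (deriv (deriv q)) := (contDiff_infty_iff_deriv.1 hq1).2
  obtain ⟨b1, hb1⟩ := (isCompact_Icc (a := ξ₀ - R) (b := ξ₀ + R)).exists_bound_of_continuousOn
    hq1.continuous.continuousOn
  obtain ⟨b2, hb2⟩ := (isCompact_Icc (a := ξ₀ - R) (b := ξ₀ + R)).exists_bound_of_continuousOn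
    hq2.continuous.continuousOn
  obtain ⟨M, hM0, hM1, hM2⟩ : ∃ M : ℝ, 0 ≤ M ∧ b1 ≤ M ∧ b2 ≤ M :=
    ⟨|b1| + |b2|, by positivity, by
      have := le_abs_self b1; have := abs_nonneg b2; linarith, by
      have := le_abs_self b2; have := abs_nonneg b1; linarith⟩
  have kq1 : ∀ y ∈ Icc (ξ₀ - R) (ξ₀ + R), ‖deriv q y‖ ≤ M := fun y hy => (hb1 y hy).trans hM1
  have kq2 : ∀ y ∈ Icc (ξ₀ - R) (ξ₀ + R), ‖deriv (deriv q) y‖ ≤ M :=
    fun y hy => (hb2 y hy).trans hM2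
  refine ⟨4 * R * (M * R * c + 3 * M * c), by positivity, ?_⟩
  intro ε hε hε1 s
  have hdq : ∀ y, HasDerivAt q (deriv q y) y := fun y =>
    ((hq.differentiable (by simp)) y).hasDerivAt
  have hdq1 : ∀ y, HasDerivAt (deriv q) (deriv (deriv q) y) y := fun y =>
    ((hq1.differentiable (by simp)) y).hasDerivAt
  have hdχ : ∀ y, HasDerivAt χ (deriv χ y) y := fun y =>
    ((hχ.1.differentiable (by simp)) y).hasDerivAt
  have hdχ1 : ∀ y, HasDerivAt (deriv χ) (deriv (deriv χ) y) y := fun y =>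
    ((hχ1.differentiable (by simp)) y).hasDerivAt
  have hin : ∀ η : ℝ, HasDerivAt (fun η : ℝ => ξ₀ + ε * η) ε η := by
    intro η
    simpa using ((hasDerivAt_id η).const_mul ε).const_add ξ₀
  have hmem : ∀ η, |η| ≤ R → ξ₀ + ε * η ∈ Icc (ξ₀ - R) (ξ₀ + R) := by
    intro η hη
    have h1 : |ε * η| ≤ R := by
      rw [abs_mul, abs_of_pos hε]
      nlinarith [abs_nonneg η]
    have h2 := abs_le.1 h1
    constructor <;> linarith [h2.1, h2.2]
  have kdiff : ∀ η, |η| ≤ R → ‖q (ξ₀ + ε * η) - q ξ₀‖ ≤ M * (ε * R) := by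
    intro η hη
    have h1 := Convex.norm_image_sub_le_of_norm_deriv_le (f := q) (C := M)
      (s := Icc (ξ₀ - R) (ξ₀ + R)) (x := ξ₀) (y := ξ₀ + ε * η)
      (fun y _ => (hdq y).differentiableAt) kq1 (convex_Icc _ _)
      ⟨by linarith, by linarith⟩ (hmem η hη)
    refine h1.trans ?_
    have h2 : ‖ξ₀ + ε * η - ξ₀‖ ≤ ε * R := by
      rw [add_sub_cancel_left, Real.norm_eq_abs, abs_mul, abs_of_pos hε]
      exact mul_le_mul_of_nonneg_left hη hε.le
    exact mul_le_mul_of_nonneg_left h2 hM0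
  -- the second part
  let F : ℝ → ℂ := fun η => (q (ξ₀ + ε * η) - q ξ₀) * χ η
  have hFs : ContDiff ℝ ∞ F := by
    have h1 : ContDiff ℝ ∞ (fun η : ℝ => q (ξ₀ + ε * η)) :=
      hq.comp (contDiff_const.add (contDiff_const.mul contDiff_id))
    exact (h1.sub contDiff_const).mul hχ.1
  have hF1 : deriv F = fun η => (ε : ℂ) * deriv q (ξ₀ + ε * η) * χ η +
      (q (ξ₀ + ε * η) - q ξ₀) * deriv χ η := by
    funext η
    have h1 : HasDerivAt (fun η : ℝ => q (ξ₀ + ε * η)) (ε • deriv q (ξ₀ + ε * η)) η :=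
      HasDerivAt.scomp η (hdq _) (hin η)
    have h2 := (h1.sub_const (q ξ₀)).mul (hdχ η)
    have h3 := h2.deriv
    change deriv F η = _ at h3
    rw [h3, Complex.real_smul]
  have hF2 : ∀ η, deriv (deriv F) η =
      (ε : ℂ) * ((ε : ℂ) * deriv (deriv q) (ξ₀ + ε * η)) * χ η +
      (ε : ℂ) * deriv q (ξ₀ + ε * η) * deriv χ η +
      ((ε : ℂ) * deriv q (ξ₀ + ε * η) * deriv χ η +
      (q (ξ₀ + ε * η) - q ξ₀) * deriv (deriv χ) η) := by
    intro η
    rw [hF1]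
    have h1 : HasDerivAt (fun η : ℝ => q (ξ₀ + ε * η)) (ε • deriv q (ξ₀ + ε * η)) η :=
      HasDerivAt.scomp η (hdq _) (hin η)
    have h2 : HasDerivAt (fun η : ℝ => deriv q (ξ₀ + ε * η))
        (ε • deriv (deriv q) (ξ₀ + ε * η)) η :=
      HasDerivAt.scomp η (hdq1 _) (hin η)
    have h3 := (h2.const_mul (ε : ℂ)).mul (hdχ η)
    have h4 := (h1.sub_const (q ξ₀)).mul (hdχ1 η)
    have h5 := (h3.add h4).deriv
    rw [Complex.real_smul, Complex.real_smul] at h5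
    exact h5
  have hFz : ∀ η, R < |η| → F η = 0 := by
    intro η hη
    change (q (ξ₀ + ε * η) - q ξ₀) * χ η = 0
    rw [hχz η hη, mul_zero]
  have hεn : ‖(ε : ℂ)‖ = ε := by
    rw [Complex.norm_real, Real.norm_eq_abs, abs_of_pos hε]
  have hbF0 : ∀ η, |η| ≤ R → ‖F η‖ ≤ ε * (M * R * c + 3 * M * c) := by
    intro η hη
    change ‖(q (ξ₀ + ε * η) - q ξ₀) * χ η‖ ≤ _
    rw [norm_mul]
    have h1 := mul_le_mul (kdiff η hη) (kχ0 η hη) (norm_nonneg _) (by positivity)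
    have h2 : 0 ≤ ε * (3 * M * c) := by positivity
    nlinarith
  have hbF2 : ∀ η, |η| ≤ R → ‖deriv (deriv F) η‖ ≤ ε * (M * R * c + 3 * M * c) := by
    intro η hη
    rw [hF2]
    have e1 : ‖(ε : ℂ) * ((ε : ℂ) * deriv (deriv q) (ξ₀ + ε * η)) * χ η‖ ≤ ε * (M * c) := by
      rw [norm_mul, norm_mul, norm_mul, hεn]
      have h1 := mul_le_mul (kq2 _ (hmem η hη)) (kχ0 η hη) (norm_nonneg _) hM0
      have h2 : 0 ≤ ‖deriv (deriv q) (ξ₀ + ε * η)‖ * ‖χ η‖ := by positivity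
      have h3 : ε * (ε * ‖deriv (deriv q) (ξ₀ + ε * η)‖) * ‖χ η‖ =
          ε * (ε * (‖deriv (deriv q) (ξ₀ + ε * η)‖ * ‖χ η‖)) := by ring
      rw [h3]
      apply mul_le_mul_of_nonneg_left _ hε.le
      nlinarith
    have e2 : ‖(ε : ℂ) * deriv q (ξ₀ + ε * η) * deriv χ η‖ ≤ ε * (M * c) := by
      rw [norm_mul, norm_mul, hεn, mul_assoc]
      apply mul_le_mul_of_nonneg_left _ hε.le
      exact mul_le_mul (kq1 _ (hmem η hη)) (kχ1 η hη) (norm_nonneg _) hM0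
    have e3 : ‖(q (ξ₀ + ε * η) - q ξ₀) * deriv (deriv χ) η‖ ≤ M * (ε * R) * c := by
      rw [norm_mul]
      exact mul_le_mul (kdiff η hη) (kχ2 η hη) (norm_nonneg _) (by positivity)
    have h1 := norm_add_le ((ε : ℂ) * ((ε : ℂ) * deriv (deriv q) (ξ₀ + ε * η)) * χ η +
      (ε : ℂ) * deriv q (ξ₀ + ε * η) * deriv χ η) ((ε : ℂ) * deriv q (ξ₀ + ε * η) * deriv χ η +
      (q (ξ₀ + ε * η) - q ξ₀) * deriv (deriv χ) η)
    have h2 := norm_add_le ((ε : ℂ) * ((ε : ℂ) * deriv (deriv q) (ξ₀ + ε * η)) * χ η)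
      ((ε : ℂ) * deriv q (ξ₀ + ε * η) * deriv χ η)
    have h3 := norm_add_le ((ε : ℂ) * deriv q (ξ₀ + ε * η) * deriv χ η)
      ((q (ξ₀ + ε * η) - q ξ₀) * deriv (deriv χ) η)
    nlinarith
  have B2 := bound2 F hFs R _ hR0 hFz hbF0 hbF2 (ε * s)
  have B1 := bound2 χ hχ.1 R c hR0 hχz kχ0 kχ2 (ε * s)
  -- substitution
  have hsubst : ∫ ξ, q ξ * χ ((ξ - ξ₀) / ε) * e (ξ * s) =
      (ε : ℂ) * (e (ξ₀ * s) * ∫ η, q (ξ₀ + ε * η) * χ η * e (ε * s * η)) := by
    have h1 : ∫ ξ, q ξ * χ ((ξ - ξ₀) / ε) * e (ξ * s) =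
        ∫ ξ, q (ξ₀ + ξ) * χ ((ξ₀ + ξ - ξ₀) / ε) * e ((ξ₀ + ξ) * s) :=
      (integral_add_left_eq_self (fun ξ : ℝ => q ξ * χ ((ξ - ξ₀) / ε) * e (ξ * s)) ξ₀).symm
    have h2 := Measure.integral_comp_mul_left
      (fun ξ : ℝ => q (ξ₀ + ξ) * χ ((ξ₀ + ξ - ξ₀) / ε) * e ((ξ₀ + ξ) * s)) ε
    rw [abs_of_pos (inv_pos.2 hε)] at h2
    have h3 : (fun x : ℝ => q (ξ₀ + ε * x) * χ ((ξ₀ + ε * x - ξ₀) / ε) * e ((ξ₀ + ε * x) * s)) =
        fun x : ℝ => e (ξ₀ * s) * (q (ξ₀ + ε * x) * χ x * e (ε * s * x)) := by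
      funext x
      have h4 : (ξ₀ + ε * x - ξ₀) / ε = x := by
        field_simp
        ring
      have h5 : (ξ₀ + ε * x) * s = ξ₀ * s + ε * s * x := by ring
      rw [h4, h5, e_add]
      ring
    rw [h3, integral_const_mul] at h2
    rw [h1, h2, Complex.real_smul, ← mul_assoc, Complex.ofReal_inv, mul_inv_cancel₀, one_mul]
    exact_mod_cast hε.ne'
  have hcF : HasCompactSupport F := by
    have : HasCompactSupport (fun η => (q (ξ₀ + ε * η) - q ξ₀) * χ η) := hχ.2.mul_left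
    exact this
  have hsplit : ∫ η, q (ξ₀ + ε * η) * χ η * e (ε * s * η) =
      q ξ₀ * (∫ η, χ η * e (ε * s * η)) + ∫ η, F η * e (ε * s * η) := by
    rw [← integral_const_mul, ← integral_add]
    · congr 1
      funext η
      change _ = q ξ₀ * (χ η * e (ε * s * η)) + (q (ξ₀ + ε * η) - q ξ₀) * χ η * e (ε * s * η)
      ring
    · exact (integrable_mul_e χ hχ.1.continuous hχ.2 (ε * s)).const_mul _
    · exact integrable_mul_e F hFs.continuous hcF (ε * s)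
  rw [hsubst, norm_mul, norm_mul, norm_e, one_mul, hεn, hsplit]
  have hpos : 0 < 1 + (ε * s) ^ 2 := by positivity
  rw [le_div_iff₀ hpos]
  have h1 := norm_add_le (q ξ₀ * (∫ η, χ η * e (ε * s * η))) (∫ η, F η * e (ε * s * η))
  rw [norm_mul] at h1
  set J1 := ‖∫ η, χ η * e (ε * s * η)‖ with hJ1
  set J2 := ‖∫ η, F η * e (ε * s * η)‖ with hJ2
  have h2 : ‖q ξ₀ * (∫ η, χ η * e (ε * s * η)) + ∫ η, F η * e (ε * s * η)‖ * (1 + (ε * s) ^ 2) ≤
      (‖q ξ₀‖ * J1 + J2) * (1 + (ε * s) ^ 2) := mul_le_mul_of_nonneg_right h1 hpos.le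
  have h3 : (‖q ξ₀‖ * J1 + J2) * (1 + (ε * s) ^ 2) =
      ‖q ξ₀‖ * ((1 + (ε * s) ^ 2) * J1) + (1 + (ε * s) ^ 2) * J2 := by ring
  have h4 : ‖q ξ₀‖ * ((1 + (ε * s) ^ 2) * J1) ≤ ‖q ξ₀‖ * (4 * R * c) :=
    mul_le_mul_of_nonneg_left B1 (norm_nonneg _)
  rw [mul_assoc]
  apply mul_le_mul_of_nonneg_left _ hε.le
  rw [h3] at h2
  linarith

end Pool.Agent.Run7.h540.BC
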